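import Mathlib
import Pool.Agent.Helper56.TOF.Goals2
import Pool.Agent.Helper57.RZ.T1
import Pool.Agent.Helper57.RZ.T3
import Pool.Agent.Helper77.CIR.CE1

/-! # Project TOF, packet CON: expansion of differences in the unstable cone -/

set_option autoImplicit false

open Set Filter Topology MeasureTheory

namespace Pool.Agent.Helper71.TOF

open Pool.Agent.Helper56.RZ Pool.Agent.Helper30.CIR Pool.Agent.Helper56.TOF
open Pool.Agent.Helper77.CIR

variable {K : ℕ} {M : Set (E K)}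

/-- the projections are bounded on the compact set `M` -/
lemma bdP (hM : IsCompact M) {P : Fin 3 → E K → End K} (hP : ContProj M P) :
    ∃ R : ℝ, 1 ≤ R ∧ ∀ x ∈ M, ∀ i, ‖P i x‖ ≤ R := by
  have h : ∀ i, ∃ C, ∀ x ∈ M, ‖P i x‖ ≤ C := fun i => hM.exists_bound_of_continuousOn (hP i).1
  choose C hC using h
  refine ⟨max 1 (max (C 0) (max (C 1) (C 2))), le_max_left _ _, ?_⟩
  intro x hx i
  fin_cases i
  · exact (hC 0 x hx).trans (by simp)
  · exact (hC 1 x hx).trans (by simp)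
  · exact (hC 2 x hx).trans (by simp)

/-- one step: the cone is invariant and the unstable part expands -/
lemma step {f f' : E K → E K} {P : Fin 3 → E K → End K} (hf : IsDiffeo 1 M f f')
    (hP : PartHyp M f f' P) (n : ℕ) (θ R e1 ε : ℝ) (hθ : 0 < θ) (hθ1 : θ < 1) (hR : 1 ≤ R)
    (hRb : ∀ x ∈ M, ∀ i, ‖P i x‖ ≤ R) (he : 0 < e1) (he4 : e1 ≤ 1 / 4)
    (he8 : 8 * R * e1 ≤ 1 - θ)
    (hH : ∀ x ∈ M, ∀ w, P 2 x w = w → ‖w‖ ≤ θ * ‖der M (f^[n]) x w‖ ∧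
      ∀ v, ∀ i : Fin 3, i ≠ 2 → P i x v = v →
      ‖der M (f^[n]) x v‖ * ‖w‖ ≤ θ * (‖v‖ * ‖der M (f^[n]) x w‖))
    (hU1 : ∀ x ∈ M, ∀ y ∈ M, ‖y - x‖ ≤ ε →
      ‖(f^[n]) y - (f^[n]) x - der M (f^[n]) x (y - x)‖ ≤ e1 * ‖y - x‖)
    (hU2 : ∀ x ∈ M, ∀ y ∈ M, ‖y - x‖ ≤ ε → ‖y - x - Pi M x (y - x)‖ ≤ e1 * ‖y - x‖)
    {x y : E K} (hx : x ∈ M) (hy : y ∈ M) (hxy : ‖y - x‖ ≤ ε)
    (hc : ∀ i : Fin 3, i ≠ 2 → ‖P i x (y - x)‖ ≤ ‖P 2 x (y - x)‖) :
    ‖y - x‖ ≤ 4 * ‖P 2 x (y - x)‖ ∧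
    (∀ i : Fin 3, i ≠ 2 → ‖P i (f^[n] x) (f^[n] y - f^[n] x)‖ ≤
      ‖P 2 (f^[n] x) (f^[n] y - f^[n] x)‖) ∧
    ‖P 2 x (y - x)‖ ≤ (2 * θ / (1 + θ)) * ‖P 2 (f^[n] x) (f^[n] y - f^[n] x)‖ := by
  set w := y - x with hw
  set D := der M (f^[n]) x with hD
  set a := ‖P 2 x w‖ with ha
  have ha0 : 0 ≤ a := norm_nonneg _
  have hsum : Pi M x w = P 0 x w + P 1 x w + P 2 x w := by
    rw [← (hP.sum x hx).1]
    simp
  have h1 : ‖w‖ ≤ 4 * a := by
    have h2 := hU2 x hx y hy hxy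
    rw [← hw, hsum] at h2
    have h3 : ‖w‖ ≤ ‖w - (P 0 x w + P 1 x w + P 2 x w)‖ + ‖P 0 x w + P 1 x w + P 2 x w‖ := by
      have := norm_add_le (w - (P 0 x w + P 1 x w + P 2 x w)) (P 0 x w + P 1 x w + P 2 x w)
      simpa using this
    have h4 : ‖P 0 x w + P 1 x w + P 2 x w‖ ≤ ‖P 0 x w‖ + ‖P 1 x w‖ + ‖P 2 x w‖ :=
      norm_add₃_le
    have h5 := hc 0 (by decide)
    have h6 := hc 1 (by decide)
    have h7 : e1 * ‖w‖ ≤ 1 / 4 * ‖w‖ := mul_le_mul_of_nonneg_right he4 (norm_nonneg _)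
    rw [← ha] at h4
    linarith
  set b := ‖D (P 2 x w)‖ with hb
  have hb0 : 0 ≤ b := norm_nonneg _
  have hPP : ∀ i, P i x (P i x w) = P i x w := by
    intro i
    have := (hP.proj i).2 x hx
    calc P i x (P i x w) = (P i x * P i x) w := rfl
      _ = _ := by rw [this]
  have hab : a ≤ θ * b := (hH x hx (P 2 x w) (hPP 2)).1
  have hab1 : a ≤ b := hab.trans (by nlinarith)
  -- the other components
  have hci : ∀ i : Fin 3, i ≠ 2 → ‖D (P i x w)‖ ≤ θ * b := by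
    intro i hi
    have h2 := (hH x hx (P 2 x w) (hPP 2)).2 (P i x w) i hi (hPP i)
    have h3 := hc i hi
    rcases ha0.eq_or_lt with h0 | h0
    · have h4 : P i x w = 0 := by
        have : ‖P i x w‖ ≤ 0 := by
          rw [h0]
          exact h3
        exact norm_le_zero_iff.mp this
      rw [h4, map_zero, norm_zero]
      positivity
    · have h5 : ‖D (P i x w)‖ * a ≤ (θ * b) * a := by
        calc ‖D (P i x w)‖ * a ≤ θ * (‖P i x w‖ * b) := h2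
          _ ≤ θ * (a * b) := by gcongr
          _ = (θ * b) * a := by ring
      exact le_of_mul_le_mul_right h5 h0
  -- the error
  set F := f^[n] with hF
  obtain ⟨e, hee⟩ : ∃ e, e = F y - F x - D w := ⟨_, rfl⟩
  have hen : ‖e‖ ≤ e1 * (4 * b) := by
    rw [hee]
    refine (hU1 x hx y hy hxy).trans ?_
    exact mul_le_mul_of_nonneg_left (h1.trans (by linarith)) he.le
  have hdec : ∀ i, P i (F x) (F y - F x) = D (P i x w) + P i (F x) e := by
    intro i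
    have h2 : F y - F x = D w + e := by rw [hee]; abel
    have h3 : D * P i x = P i (F x) * D := inv_iter hf hP n hx i
    have h4 : D (P i x w) = P i (F x) (D w) := by
      calc D (P i x w) = (D * P i x) w := rfl
        _ = (P i (F x) * D) w := by rw [h3]
        _ = _ := rfl
    rw [h2, map_add, h4]
  have hFx : F x ∈ M := hf.maps.iterate n hx
  have hPe : ∀ i, ‖P i (F x) e‖ ≤ 4 * R * e1 * b := by
    intro i
    calc ‖P i (F x) e‖ ≤ ‖P i (F x)‖ * ‖e‖ := (P i (F x)).le_opNorm e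
      _ ≤ R * (e1 * (4 * b)) := by
        gcongr
        exact hRb _ hFx i
      _ = _ := by ring
  have hlow : (1 - 4 * R * e1) * b ≤ ‖P 2 (F x) (F y - F x)‖ := by
    rw [hdec 2]
    have h2 := norm_sub_norm_le (D (P 2 x w)) (-(P 2 (F x) e))
    rw [sub_neg_eq_add, norm_neg] at h2
    have h3 := hPe 2
    nlinarith
  refine ⟨h1, ?_, ?_⟩
  · intro i hi
    refine le_trans ?_ hlow
    rw [hdec i]
    refine (norm_add_le _ _).trans ?_
    have h2 := hci i hi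
    have h3 := hPe i
    nlinarith
  · have h2 : (1 + θ) / 2 * b ≤ ‖P 2 (F x) (F y - F x)‖ := by
      refine le_trans ?_ hlow
      apply mul_le_mul_of_nonneg_right _ hb0
      linarith
    calc a ≤ θ * b := hab
      _ = (2 * θ / (1 + θ)) * ((1 + θ) / 2 * b) := by
        field_simp
      _ ≤ _ := by
        apply mul_le_mul_of_nonneg_left h2
        positivity

/-- PACKET CON -/
theorem gCON (hU : StmtUDF) (hH : StmtHYP) : StmtCON := by
  intro N K M m f f' P hM hf hP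
  obtain ⟨n, hn, θ, hθ, hθ1, hH⟩ := hH K M f f' P hM.compact hf hP
  obtain ⟨R, hR, hRb⟩ := bdP hM.compact hP.proj
  refine ⟨n, hn, ?_⟩
  obtain ⟨e1, he, he4, he8⟩ : ∃ e1 : ℝ, 0 < e1 ∧ e1 ≤ 1 / 4 ∧ 8 * R * e1 ≤ 1 - θ := by
    refine ⟨min (1 / 4) ((1 - θ) / (8 * R)), ?_, min_le_left _ _, ?_⟩
    · apply lt_min (by norm_num)
      apply div_pos <;> linarith
    · calc 8 * R * min (1 / 4) ((1 - θ) / (8 * R)) ≤ 8 * R * ((1 - θ) / (8 * R)) := by
            apply mul_le_mul_of_nonneg_left (min_le_right _ _)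
            linarith
        _ = 1 - θ := by
            field_simp
  have hsm : ContDiffOn ℝ 1 (f^[n]) M := by
    obtain ⟨x0, hx0⟩ := hM.nonempty
    exact (der_iter hf n hx0).2.1
  obtain ⟨δ1, hδ1, hU1⟩ := hU N K M m (f^[n]) hM hsm e1 he
  obtain ⟨δ2, hδ2, hU2⟩ := hU N K M m id hM contDiffOn_id e1 he
  have hU2' : ∀ x ∈ M, ∀ y ∈ M, ‖y - x‖ ≤ δ2 → ‖y - x - Pi M x (y - x)‖ ≤ e1 * ‖y - x‖ := by
    intro x hx y hy hxy
    have h1 := hU2 x hx y hy hxy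
    rw [(Pool.Agent.Helper57.RZ.t2 K M id id x hx).2.2.2.1] at h1
    simpa using h1
  set ε := min δ1 δ2 with hε
  have hε0 : 0 < ε := lt_min hδ1 hδ2
  set θ' := 2 * θ / (1 + θ) with hθ'
  have hθ'0 : 0 < θ' := by positivity
  have hθ'1 : θ' < 1 := by
    rw [hθ', div_lt_one (by linarith)]
    linarith
  have hst : ∀ x ∈ M, ∀ y ∈ M, ‖y - x‖ ≤ ε →
      (∀ i : Fin 3, i ≠ 2 → ‖P i x (y - x)‖ ≤ ‖P 2 x (y - x)‖) →
      ‖y - x‖ ≤ 4 * ‖P 2 x (y - x)‖ ∧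
      (∀ i : Fin 3, i ≠ 2 → ‖P i (f^[n] x) (f^[n] y - f^[n] x)‖ ≤
        ‖P 2 (f^[n] x) (f^[n] y - f^[n] x)‖) ∧
      ‖P 2 x (y - x)‖ ≤ θ' * ‖P 2 (f^[n] x) (f^[n] y - f^[n] x)‖ := by
    intro x hx y hy hxy hc
    exact step hf hP n θ R e1 ε hθ hθ1 hR hRb he he4 he8 hH
      (fun x hx y hy h => hU1 x hx y hy (h.trans (min_le_left _ _)))
      (fun x hx y hy h => hU2' x hx y hy (h.trans (min_le_right _ _))) hx hy hxy hc
  have hmap : MapsTo (f^[n]) M M := hf.maps.iterate n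
  have hind : ∀ J : ℕ, ∀ x ∈ M, ∀ y ∈ M,
      (∀ k ≤ J, ‖(f^[n])^[k] y - (f^[n])^[k] x‖ ≤ ε) →
      (∀ i : Fin 3, i ≠ 2 → ‖P i x (y - x)‖ ≤ ‖P 2 x (y - x)‖) →
      ‖P 2 x (y - x)‖ ≤ θ' ^ J * (R * ε) := by
    intro J
    induction J with
    | zero =>
      intro x hx y hy hk hc
      have h0 := hk 0 le_rfl
      simp only [Function.iterate_zero, id_eq] at h0
      rw [pow_zero, one_mul]
      calc ‖P 2 x (y - x)‖ ≤ ‖P 2 x‖ * ‖y - x‖ := (P 2 x).le_opNorm _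
        _ ≤ R * ε := by
          gcongr
          exact hRb x hx 2
    | succ J ih =>
      intro x hx y hy hk hc
      have h0 := hk 0 (Nat.zero_le _)
      simp only [Function.iterate_zero, id_eq] at h0
      obtain ⟨-, h2, h3⟩ := hst x hx y hy h0 hc
      have h4 := ih (f^[n] x) (hmap hx) (f^[n] y) (hmap hy) (by
        intro k hk'
        have := hk (k + 1) (by omega)
        rwa [Function.iterate_succ_apply, Function.iterate_succ_apply] at this) h2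
      calc ‖P 2 x (y - x)‖ ≤ θ' * ‖P 2 (f^[n] x) (f^[n] y - f^[n] x)‖ := h3
        _ ≤ θ' * (θ' ^ J * (R * ε)) := mul_le_mul_of_nonneg_left h4 hθ'0.le
        _ = θ' ^ (J + 1) * (R * ε) := by ring
  refine ⟨ε, 4 * (R * ε), θ', hε0, by positivity, hθ'0, hθ'1, ?_⟩
  intro J x hx y hy hk hc
  have h0 := hk 0 (Nat.zero_le _)
  simp only [Function.iterate_zero, id_eq] at h0
  have h1 := (hst x hx y hy h0 hc).1
  have h2 := hind J x hx y hy hk hc
  calc ‖y - x‖ ≤ 4 * ‖P 2 x (y - x)‖ := h1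
    _ ≤ 4 * (θ' ^ J * (R * ε)) := by linarith
    _ = 4 * (R * ε) * θ' ^ J := by ring

end Pool.Agent.Helper71.TOF
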